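import Pool.Agent.Helper84.SJ.Constr
import Pool.Agent.Helper86.SG.Defs

/-! Package CON of SG: the construction for `t = -(2 d + 2)`. -/

set_option autoImplicit false

open Finset

namespace Pool.Agent.Helper72.SG

open _root_.SJ
open Pool.Agent.Helper84.SJ (dis mem_supp mem_dis dot_ge)

variable {n : ℕ}

/-- the members of the family: `T`, `c`, `F₁` are fixed -/
structure Mem (k d : ℕ) (T : Finset (Fin n)) (c : Fin n → ℤ) (F₁ : Finset (Fin n → ℤ))
    (v : Fin n → ℤ) : Prop where
  isV : IsV n k v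
  dis_le : #(dis c v) ≤ d + 1
  min : #(dis c v) = d + 1 → ¬ Disjoint (supp v) T →
    ∃ t ∈ dis c v, t ∈ T ∧ ∀ z ∈ supp v, z ∈ T → t ≤ z
  mem : Disjoint (supp v) T → #(dis c v) = d + 1 → v ∈ F₁

lemma dis_sub {c v : Fin n → ℤ} : dis c v ⊆ supp v := fun _ h => mem_supp.mpr (mem_dis.mp h).1

lemma indK_aux (k d : ℕ) (T : Finset (Fin n)) (c : Fin n → ℤ) (hc : ∀ i, c i = 1 ∨ c i = -1)
    (F₁ : Finset (Fin n → ℤ)) (hF : ∀ u ∈ F₁, ∀ v ∈ F₁, u ≠ v → dot u v ≠ -(2 * d + 2 : ℤ))
    (u v : Fin n → ℤ) (hu : Mem k d T c F₁ u)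
    (hv : Mem k d T c F₁ v) (hne : u ≠ v) : ¬ dot u v ≤ -(2 * d + 2 : ℤ) := by
  intro hd
  have h1 := dot_ge c u v hc hu.isV.1 hv.isV.1
  have h2 := card_union_add_card_inter (dis c u ∩ supp v) (dis c v ∩ supp u)
  have a1 := hu.dis_le
  have a2 := hv.dis_le
  have a3 := card_le_card (inter_subset_left (s₁ := dis c u) (s₂ := supp v))
  have a4 := card_le_card (inter_subset_left (s₁ := dis c v) (s₂ := supp u))
  have h3 : 2 * d + 2 ≤ #((dis c u ∩ supp v) ∪ (dis c v ∩ supp u)) := by omega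
  have hdd : dot u v = -(2 * d + 2 : ℤ) := by omega
  have hU : #(dis c u) = d + 1 := by omega
  have hV : #(dis c v) = d + 1 := by omega
  have b1 : dis c u ∩ supp v = dis c u := eq_of_subset_of_card_le inter_subset_left (by omega)
  have b2 : dis c v ∩ supp u = dis c v := eq_of_subset_of_card_le inter_subset_left (by omega)
  have b3 : dis c u ⊆ supp v := inter_eq_left.mp b1
  have b4 : dis c v ⊆ supp u := inter_eq_left.mp b2
  have b5 : #(dis c u ∩ dis c v) = 0 := by
    rw [b1, b2] at h2 h3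
    omega
  have b6 : dis c u ∩ dis c v = ∅ := card_eq_zero.mp b5
  by_cases hT : Disjoint (supp u) T
  · by_cases hT' : Disjoint (supp v) T
    · exact hF u (hu.mem hT hU) v (hv.mem hT' hV) hne hdd
    · obtain ⟨t, ht, htT, _⟩ := hv.min hV hT'
      exact Finset.disjoint_left.mp hT (b4 ht) htT
  · obtain ⟨t, ht, htT, htm⟩ := hu.min hU hT
    have hT' : ¬ Disjoint (supp v) T := fun h => Finset.disjoint_left.mp h (b3 ht) htT
    obtain ⟨t', ht', htT', htm'⟩ := hv.min hV hT'
    have e : t = t' := le_antisymm (htm t' (b4 ht') htT') (htm' t (b3 ht) htT)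
    have : t ∈ dis c u ∩ dis c v := mem_inter.mpr ⟨ht, e ▸ ht'⟩
    rw [b6] at this
    exact notMem_empty _ this

/-- the vector with support `S` which differs from `c` at `D` -/
def enc (c : Fin n → ℤ) (S D : Finset (Fin n)) : Fin n → ℤ :=
  fun i => if i ∈ S then (if i ∈ D then - c i else c i) else 0

lemma supp_enc {c : Fin n → ℤ} (hc : ∀ i, c i = 1 ∨ c i = -1) (S D : Finset (Fin n)) :
    supp (enc c S D) = S := by
  ext i
  rw [mem_supp]
  unfold enc
  by_cases h2 : i ∈ S
  · rw [if_pos h2]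
    split_ifs <;> rcases hc i with h | h <;> simp [h, h2]
  · rw [if_neg h2]
    simp [h2]

lemma dis_enc {c : Fin n → ℤ} (hc : ∀ i, c i = 1 ∨ c i = -1) (S D : Finset (Fin n))
    (hD : D ⊆ S) : dis c (enc c S D) = D := by
  ext i
  rw [mem_dis]
  unfold enc
  by_cases h2 : i ∈ S
  · rw [if_pos h2]
    by_cases h1 : i ∈ D
    · rw [if_pos h1]
      refine ⟨fun _ => h1, fun _ => ?_⟩
      rcases hc i with h | h <;> simp [h]
    · rw [if_neg h1]
      exact ⟨fun h => absurd rfl h.2, fun h => absurd h h1⟩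
  · rw [if_neg h2]
    exact ⟨fun h => absurd rfl h.1, fun h => absurd (hD h) h2⟩

open Classical in
/-- the sets of coordinates which may differ from `c` -/
noncomputable def Q (d : ℕ) (T S : Finset (Fin n)) : Finset (Finset (Fin n)) :=
  S.powerset.filter (fun D => #D ≤ d ∨ (#D = d + 1 ∧ ∃ t ∈ D, t ∈ T ∧ ∀ z ∈ S, z ∈ T → t ≤ z))

open Classical in
lemma card_Q (k d : ℕ) (T S : Finset (Fin n)) (hS : #S = k) :
    (∑ i ∈ range (d + 1), k.choose i) + (if ¬ Disjoint S T then (k - 1).choose d else 0) ≤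
      #(Q d T S) := by
  set Q1 : Finset (Finset (Fin n)) := (range (d + 1)).biUnion (fun i => powersetCard i S) with hQ1
  have c1 : #Q1 = ∑ i ∈ range (d + 1), k.choose i := by
    rw [hQ1, card_biUnion]
    · refine sum_congr rfl fun i _ => ?_
      rw [card_powersetCard, hS]
    · intro i _ j _ hij
      rw [Function.onFun, Finset.disjoint_left]
      intro D h1 h2
      rw [mem_powersetCard] at h1 h2
      exact hij (h1.2.symm.trans h2.2)
  have s1 : Q1 ⊆ Q d T S := by
    intro D hD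
    rw [hQ1, mem_biUnion] at hD
    obtain ⟨i, hi, hD⟩ := hD
    rw [mem_powersetCard] at hD
    rw [mem_range] at hi
    unfold Q
    rw [mem_filter, mem_powerset]
    exact ⟨hD.1, Or.inl (by omega)⟩
  by_cases hT : Disjoint S T
  · rw [if_neg (not_not.mpr hT), add_zero, ← c1]
    exact card_le_card s1
  · rw [if_pos hT]
    have h1 : (S ∩ T).Nonempty := by
      by_contra h
      exact hT (disjoint_iff_inter_eq_empty.mpr (not_nonempty_iff_eq_empty.mp h))
    obtain ⟨t, ht⟩ : ∃ t, t = (S ∩ T).min' h1 := ⟨_, rfl⟩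
    have htST : t ∈ S ∩ T := ht ▸ min'_mem _ h1
    rw [mem_inter] at htST
    have htm : ∀ z ∈ S, z ∈ T → t ≤ z := fun z hz hzT =>
      ht ▸ min'_le _ _ (mem_inter.mpr ⟨hz, hzT⟩)
    set Q2 : Finset (Finset (Fin n)) := (powersetCard d (S.erase t)).image (insert t) with hQ2
    have c2 : #Q2 = (k - 1).choose d := by
      rw [hQ2, card_image_of_injOn, card_powersetCard, card_erase_of_mem htST.1, hS]
      intro D hD D' hD' h
      have e1 : t ∉ D := fun hh => notMem_erase t S ((mem_powersetCard.mp hD).1 hh)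
      have e2 : t ∉ D' := fun hh => notMem_erase t S ((mem_powersetCard.mp hD').1 hh)
      have h' : insert t D = insert t D' := h
      rw [← erase_insert e1, h', erase_insert e2]
    have s2 : Q2 ⊆ Q d T S := by
      intro D hD
      rw [hQ2, mem_image] at hD
      obtain ⟨D', hD', rfl⟩ := hD
      rw [mem_powersetCard] at hD'
      have e1 : t ∉ D' := fun hh => notMem_erase t S (hD'.1 hh)
      unfold Q
      rw [mem_filter, mem_powerset]
      refine ⟨insert_subset htST.1 (hD'.1.trans (erase_subset _ _)), Or.inr ⟨?_, t,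
        mem_insert_self _ _, htST.2, htm⟩⟩
      rw [card_insert_of_notMem e1, hD'.2]
    have dj : Disjoint Q1 Q2 := by
      rw [Finset.disjoint_left]
      intro D h1 h2
      rw [hQ1, mem_biUnion] at h1
      obtain ⟨i, hi, hD⟩ := h1
      rw [mem_powersetCard] at hD
      rw [mem_range] at hi
      rw [hQ2, mem_image] at h2
      obtain ⟨D', hD', rfl⟩ := h2
      rw [mem_powersetCard] at hD'
      have e1 : t ∉ D' := fun hh => notMem_erase t S (hD'.1 hh)
      rw [card_insert_of_notMem e1, hD'.2] at hD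
      omega
    rw [← c1, ← c2, ← card_union_of_disjoint dj]
    exact card_le_card (union_subset s1 s2)

open Classical in
theorem con' (n k d : ℕ) (T : Finset (Fin n)) (c : Fin n → ℤ)
    (hc : ∀ i, c i = 1 ∨ c i = -1) (F₁ : Finset (Fin n → ℤ))
    (hV : ∀ v ∈ F₁, IsV n k v)
    (hF : ∀ u ∈ F₁, ∀ v ∈ F₁, u ≠ v → dot u v ≠ -(2 * d + 2 : ℤ))
    (hF1 : ∀ v ∈ F₁, Disjoint (supp v) T ∧ #((supp v).filter (fun i => v i ≠ c i)) = d + 1) :
    ∃ F' : Finset (Fin n → ℤ), (∀ v ∈ F', IsV n k v) ∧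
      (∀ u ∈ F', ∀ v ∈ F', u ≠ v → ¬ dot u v ≤ -(2 * d + 2 : ℤ)) ∧
      (∑ i ∈ range (d + 1), k.choose i) * n.choose k +
        (k - 1).choose d * #((powersetCard k (univ : Finset (Fin n))).filter
          (fun S => ¬ Disjoint S T)) + #F₁ ≤ #F' := by
  have hF1' : ∀ v ∈ F₁, Disjoint (supp v) T ∧ #(dis c v) = d + 1 := by
    intro v hv
    have := hF1 v hv
    exact ⟨this.1, by rw [← this.2]; unfold dis; congr⟩
  set A : Finset (Finset (Fin n)) := powersetCard k (univ : Finset (Fin n)) with hA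
  have hAm : ∀ S ∈ A, #S = k := fun S hS => (mem_powersetCard.mp hS).2
  set P : Finset (Σ _ : Finset (Fin n), Finset (Fin n)) := A.sigma (fun S => Q d T S) with hP
  set I : Finset (Fin n → ℤ) := P.image (fun p => enc c p.1 p.2) with hI
  have hsub : ∀ p ∈ P, p.1 ∈ A ∧ p.2 ⊆ p.1 ∧
      (#p.2 ≤ d ∨ (#p.2 = d + 1 ∧ ∃ t ∈ p.2, t ∈ T ∧ ∀ z ∈ p.1, z ∈ T → t ≤ z)) := by
    rintro ⟨S, D⟩ hp
    rw [hP, mem_sigma] at hp
    unfold Q at hp
    rw [mem_filter, mem_powerset] at hp
    exact ⟨hp.1, hp.2.1, hp.2.2⟩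
  have hinj : Set.InjOn (fun p : (Σ _ : Finset (Fin n), Finset (Fin n)) => enc c p.1 p.2) P := by
    rintro ⟨S, D⟩ hp ⟨S', D'⟩ hp' h
    have h' : enc c S D = enc c S' D' := h
    have e1 : S = S' := by rw [← supp_enc hc S D, h', supp_enc hc]
    have e2 : D = D' := by
      rw [← dis_enc hc S D (hsub _ hp).2.1, h', dis_enc hc S' D' (hsub _ hp').2.1]
    subst e1
    subst e2
    rfl
  have hM : ∀ v ∈ I ∪ F₁, Mem k d T c F₁ v := by
    intro v hv
    rw [mem_union, hI, mem_image] at hv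
    rcases hv with ⟨⟨S, D⟩, hp, rfl⟩ | hv
    · obtain ⟨h1, h2, h3⟩ := hsub _ hp
      dsimp only at h1 h2 h3
      refine ⟨⟨fun i => ?_, ?_⟩, ?_, ?_, ?_⟩
      · unfold enc
        split_ifs <;> rcases hc i with h | h <;> simp [h]
      · rw [supp_enc hc]; exact hAm S h1
      · rw [dis_enc hc S D h2]
        rcases h3 with h3 | h3
        · omega
        · exact h3.1.le
      · rw [dis_enc hc S D h2, supp_enc hc]
        intro hd _
        rcases h3 with h3 | h3
        · omega
        · exact h3.2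
      · rw [dis_enc hc S D h2, supp_enc hc]
        intro hdj hd
        rcases h3 with h3 | ⟨_, t, ht, htT, _⟩
        · omega
        · exact absurd htT (Finset.disjoint_left.mp hdj (h2 ht))
    · have h1 := hF1' v hv
      exact ⟨hV v hv, h1.2.le, fun _ h => absurd h1.1 h, fun _ _ => hv⟩
  refine ⟨I ∪ F₁, fun v hv => (hM v hv).isV, ?_, ?_⟩
  · intro u hu v hv hne
    exact indK_aux k d T c hc F₁ hF u v (hM u hu) (hM v hv) hne
  · have d2 : Disjoint I F₁ := by
      rw [Finset.disjoint_left]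
      intro v hv hv'
      rw [hI, mem_image] at hv
      obtain ⟨⟨S, D⟩, hp, rfl⟩ := hv
      obtain ⟨h1, h2, h3⟩ := hsub _ hp
      have h4 := hF1' _ hv'
      dsimp only at h1 h2 h3 h4
      rw [supp_enc hc, dis_enc hc S D h2] at h4
      rcases h3 with h3 | ⟨_, t, ht, htT, _⟩
      · omega
      · exact absurd htT (Finset.disjoint_left.mp h4.1 (h2 ht))
    rw [card_union_of_disjoint d2, hI, card_image_of_injOn hinj, hP, card_sigma]
    have hcA : #A = n.choose k := by
      rw [hA, card_powersetCard, card_univ, Fintype.card_fin]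
    have h5 : (∑ i ∈ range (d + 1), k.choose i) * n.choose k +
        (k - 1).choose d * #(A.filter (fun S => ¬ Disjoint S T)) =
        ∑ S ∈ A, ((∑ i ∈ range (d + 1), k.choose i) +
          (if ¬ Disjoint S T then (k - 1).choose d else 0)) := by
      rw [sum_add_distrib, sum_const, smul_eq_mul, hcA, ← sum_filter, sum_const, smul_eq_mul,
        mul_comm (n.choose k), mul_comm ((k - 1).choose d)]
    rw [h5]
    refine Nat.add_le_add_right (sum_le_sum fun S hS => ?_) _
    exact card_Q k d T S (hAm S hS)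

lemma bb (m d : ℕ) : (∑ i ∈ range (d + 1), (m + 1).choose i) + m.choose d =
    2 * ∑ i ∈ range (d + 1), m.choose i := by
  induction d with
  | zero => simp
  | succ d ih =>
    rw [sum_range_succ _ (d + 1), sum_range_succ _ (d + 1), Nat.choose_succ_succ' m d]
    omega

open Classical in
theorem con : _root_.SG.CONStm := by
  intro n k d hk T c hc F₁ hF hF1
  obtain ⟨F', h1, h2, h3⟩ := con' n k d T c hc F₁ hF.1 hF.2 hF1
  refine ⟨F', ⟨h1, h2⟩, le_trans ?_ h3⟩
  obtain ⟨m, rfl⟩ : ∃ m, k = m + 1 := ⟨k - 1, by omega⟩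
  have e1 : #((powersetCard (m + 1) (univ : Finset (Fin n))).filter (fun S => Disjoint S T)) +
      #((powersetCard (m + 1) (univ : Finset (Fin n))).filter (fun S => ¬ Disjoint S T)) =
      n.choose (m + 1) := by
    rw [card_filter_add_card_filter_not, card_powersetCard, card_univ, Fintype.card_fin]
  have e2 := bb m d
  rw [Nat.add_sub_cancel, ← e1]
  unfold _root_.SG.BB
  rw [← e2]
  refine le_of_eq ?_
  ring

end Pool.Agent.Helper72.SG
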